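import Pool.Agent.Helper74.HG.GoalsB
import Pool.Agent.Helper84.HG.WD

/-!
# Project HG, part 4: packet HG-WDB (words to hypergraphs, bipartite version)
-/

namespace Pool.Agent.Helper24.HG.WDB

open MvPolynomial Pool.Agent.Helper74.HG Pool.Agent.Helper84.HG.WD
noncomputable section

/-- The grades of the new variables are `g` and `!g`. -/
def cg {σ : Type} (c : σ → Bool) (g : Bool) : Option (Option σ) → Bool
  | none => g
  | some none => !g
  | some (some i) => c i

/-- Allowed words. -/
def ValB {σ : Type} (c : σ → Bool) (L : List (ℤ × List σ)) : Prop :=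
  ∀ p ∈ L, (p.1 = 1 ∨ p.1 = -1) ∧ 2 ≤ p.2.length ∧ p.2.countP c = 1

/-- `F` reduces to a bipartite hypergraph polynomial. -/
def GoodB {σ : Type} (F : MvPolynomial σ ℤ) : Prop :=
  ∃ (τ : Type) (_ : Fintype τ) (c' : τ → Bool) (H' : Finset (Finset τ)), Cub H' ∧ Gr c' H' ∧
    Red F (hyp H')

theorem GoodB.of_red (htr : TRA) {σ τ : Type} {F : MvPolynomial σ ℤ} {G : MvPolynomial τ ℤ}
    (h : Red F G) (hG : GoodB G) : GoodB F := by
  obtain ⟨υ, i, c', H', h1, h2, h3⟩ := hG
  exact ⟨υ, i, c', H', h1, h2, htr _ _ _ h h3⟩

theorem count_up {σ : Type} (c : σ → Bool) (g : Bool) (y : List σ) :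
    (y.map (em σ)).countP (cg c g) = y.countP c := by
  rw [List.countP_map]
  rfl

theorem gr_up {σ : Type} {c : σ → Bool} {H : Finset (Finset σ)} (hH : Gr c H) (g : Bool) :
    Gr (cg c g) (upH H) := by
  intro e he
  unfold upH at he
  rw [Finset.mem_map] at he
  obtain ⟨e', he', rfl⟩ := he
  show ((e'.map (em σ)).filter (fun i => cg c g i = true)).card = 1
  rw [Finset.filter_map, Finset.card_map]
  exact hH e' he'

theorem gr_ins {σ : Type} {c : σ → Bool} {H : Finset (Finset σ)} (hH : Gr c H) {e : Finset σ}
    (he : (e.filter (fun i => c i = true)).card = 1) : Gr c (ins e H) := by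
  intro e' he'
  rcases mem_ins.1 he' with rfl | h
  · exact he
  · exact hH e' h

theorem gr_toF {σ : Type} {c : σ → Bool} {v : List σ} (hv : v.Nodup) (hc : v.countP c = 1) :
    ((toF v).filter (fun i => c i = true)).card = 1 := by
  let _ := Classical.decEq σ
  have h1 : (toF v).filter (fun i => c i = true) = (v.filter c).toFinset := by
    ext x
    rw [Finset.mem_filter, mem_toF, List.mem_toFinset, List.mem_filter]
  rw [h1, List.toFinset_card_of_nodup (hv.filter _), ← List.countP_eq_length_filter, hc]

theorem pr_eq {τ : Type} (a b : τ) : pr a b = toF [a, b] := by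
  ext x
  rw [mem_pr, mem_toF]
  simp

theorem gr_H0 {σ : Type} {c : σ → Bool} {H : Finset (Finset σ)} (hH : Gr c H) (g : Bool) :
    Gr (cg c g) (H0 H) := by
  refine gr_ins (gr_up hH g) ?_
  rw [pr_eq]
  refine gr_toF (by simp) ?_
  cases g <;> simp [cg]

theorem gr_H1 {σ : Type} {c : σ → Bool} {H : Finset (Finset σ)} (hH : Gr c H) (i : σ) :
    Gr (cg c (c i)) (H1 H i) := by
  refine gr_ins (gr_H0 hH (c i)) ?_
  rw [pr_eq]
  refine gr_toF (by simp [em_apply]) ?_
  cases h : c i <;> simp [cg, em_apply, h]

theorem val_upB {σ : Type} {c : σ → Bool} {L : List (ℤ × List σ)} (hL : ValB c L) (g : Bool) :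
    ValB (cg c g) (upL L) := by
  intro p hp
  unfold upL at hp
  rw [List.mem_map] at hp
  obtain ⟨q, hq, rfl⟩ := hp
  obtain ⟨h1, h2, h3⟩ := hL q hq
  refine ⟨h1, ?_, ?_⟩
  · show 2 ≤ (q.2.map (em σ)).length
    rw [List.length_map]
    exact h2
  · show (q.2.map (em σ)).countP (cg c g) = 1
    rw [count_up]
    exact h3

/-- The word `w y` has the same grade as `X_i y`. -/
theorem count_w {σ : Type} (c : σ → Bool) (i : σ) (y : List σ) :
    ((none : Option (Option σ)) :: y.map (em σ)).countP (cg c (c i)) = (i :: y).countP c := by
  rw [List.countP_cons, List.countP_cons, count_up]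
  rfl

/-- A step which ends with an edge. -/
theorem S2 (htr : TRA) (hst : STE) {σ : Type} [Fintype σ] {c : σ → Bool} {H : Finset (Finset σ)}
    (hH : Cub H) (hG : Gr c H) {L : List (ℤ × List σ)} (hL : ValB c L) (i : σ) (y : List σ)
    (hy : y.Nodup) (hl : y.length = 1 ∨ y.length = 2) (hc : (i :: y).countP c = 1)
    (hrest : ∀ (τ : Type) [Fintype τ] (c' : τ → Bool) (H' : Finset (Finset τ))
      (L' : List (ℤ × List τ)), Cub H' → Gr c' H' → ValB c' L' → meas L' = meas L →
      GoodB (hyp H' + (L'.map wp).sum)) :
    GoodB (hyp H + (((-1, i :: y) :: L).map wp).sum) := by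
  have hne : y ≠ [] := by
    rintro rfl
    simp at hl
  refine GoodB.of_red htr (S1 hst H L (-1) i y hne) ?_
  have hnd : ((none : Option (Option σ)) :: y.map (em σ)).Nodup := by
    rw [List.nodup_cons]
    refine ⟨?_, hy.map (em σ).injective⟩
    rw [List.mem_map]
    rintro ⟨a, _, ha⟩
    rw [em_apply] at ha
    cases ha
  have hln : (some none : Option (Option σ)) ∉ toF ((none : Option (Option σ)) :: y.map (em σ)) := by
    rw [mem_toF, List.mem_cons, List.mem_map]
    rintro (h | ⟨a, _, ha⟩)
    · cases h
    · rw [em_apply] at ha
      cases ha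
  have hnm : toF ((none : Option (Option σ)) :: y.map (em σ)) ∉ H1 H i := by
    unfold H1
    intro h
    rcases mem_ins.1 h with h | h
    · rw [h] at hln
      exact hln (mem_pr.2 (Or.inr rfl))
    · rcases mem_ins.1 h with h | h
      · rw [h] at hln
        exact hln (mem_pr.2 (Or.inr rfl))
      · exact (none_not_mem h).1 (mem_toF.2 (List.mem_cons_self ..))
  have e : hyp (H1 H i) + (((- -1, none :: y.map (em σ)) :: upL L).map wp).sum =
      hyp (ins (toF ((none : Option (Option σ)) :: y.map (em σ))) (H1 H i)) +
        ((upL L).map wp).sum := by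
    rw [hyp_ins hnm, prod_toF hnd, sum_cons]
    unfold wp
    rw [neg_neg, C_1]
    ring
  rw [e]
  refine hrest _ (cg c (c i)) _ _ (cub_ins (cub_H1 hH i) ?_)
    (gr_ins (gr_H1 hG i) (gr_toF hnd (by rw [count_w, hc]))) (val_upB hL _) (meas_up L)
  rw [card_toF hnd, List.length_cons, List.length_map]
  omega

theorem main (htr : TRA) (hst : STE) (his : ISO) : ∀ (n : ℕ) (σ : Type) [Fintype σ]
    (c : σ → Bool) (H : Finset (Finset σ)) (L : List (ℤ × List σ)), Cub H → Gr c H → ValB c L →
    meas L ≤ n → GoodB (hyp H + (L.map wp).sum) := by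
  intro n
  induction n using Nat.strong_induction_on with
  | _ n ih =>
    intro σ _ c H L hH hG hL hn
    cases L with
    | nil =>
      refine ⟨σ, inferInstance, c, H, hH, hG, ?_⟩
      rw [List.map_nil, List.sum_nil, add_zero]
      exact his AlgEquiv.refl (fun i => constantCoeff_X _ i) (hyp H)
    | cons p L =>
      obtain ⟨s, u⟩ := p
      have hp := hL (s, u) (List.mem_cons_self ..)
      have hL' : ValB c L := fun q hq => hL q (List.mem_cons_of_mem _ hq)
      have hm : meas ((s, u) :: L) = 3 ^ u.length + meas L := by
        unfold meas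
        rw [List.map_cons, List.sum_cons]
      have hpos : 0 < 3 ^ u.length := Nat.pow_pos (by norm_num)
      have hrest : ∀ (τ : Type) [Fintype τ] (c' : τ → Bool) (H' : Finset (Finset τ))
          (L' : List (ℤ × List τ)), Cub H' → Gr c' H' → ValB c' L' → meas L' = meas L →
          GoodB (hyp H' + (L'.map wp).sum) := by
        intro τ _ c' H' L' h1 h2 h3 h4
        exact ih (meas L) (by omega) τ c' H' L' h1 h2 h3 h4.le
      obtain ⟨hs, hlen, hcu⟩ := hp
      simp only at hs hlen hcu
      match u, hlen, hcu with
      | [i, j], _, hcu =>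
        rcases hs with rfl | rfl
        · refine GoodB.of_red htr (S1 hst H L 1 i [j] (by simp)) ?_
          refine S2 (c := cg c (c i)) htr hst (cub_H1 hH i) (gr_H1 hG i) (val_upB hL' _) none
            [em σ j] (by simp) (by simp) ?_ ?_
          · exact (count_w c i [j]).trans hcu
          · intro τ _ c' H' L' h1 h2 h3 h4
            exact hrest τ c' H' L' h1 h2 h3 (h4.trans (meas_up L))
        · exact S2 htr hst hH hG hL' i [j] (by simp) (by simp) hcu hrest
      | [i, j, k], _, hcu =>
        have hw : (em σ j :: [none, em σ k]).countP (cg c (c i)) = 1 := by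
          have h1 := (count_w c i [j, k]).trans hcu
          rw [List.map_cons, List.map_cons, List.map_nil] at h1
          rw [← h1]
          exact (List.Perm.swap none (em σ j) [em σ k]).countP_eq _
        rcases hs with rfl | rfl
        · refine GoodB.of_red htr (S1 hst H L 1 i [j, k] (by simp)) ?_
          have e : (((-1, none :: [j, k].map (em σ)) :: upL L).map wp).sum =
              (((-1, em σ j :: [none, em σ k]) :: upL L).map wp).sum := by
            rw [sum_cons, sum_cons]
            congr 1
            exact wp_swap _ _ _ _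
          rw [e]
          refine S2 (c := cg c (c i)) htr hst (cub_H1 hH i) (gr_H1 hG i) (val_upB hL' _) (em σ j)
            [none, em σ k] ?_ (by simp) hw ?_
          · simp [em_apply]
          · intro τ _ c' H' L' h1 h2 h3 h4
            exact hrest τ c' H' L' h1 h2 h3 (h4.trans (meas_up L))
        · refine GoodB.of_red htr (S1 hst H L (-1) i [j, k] (by simp)) ?_
          have e : (((- -1, none :: [j, k].map (em σ)) :: upL L).map wp).sum =
              (((1, em σ j :: [none, em σ k]) :: upL L).map wp).sum := by
            rw [sum_cons, sum_cons, neg_neg]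
            congr 1
            exact wp_swap _ _ _ _
          rw [e]
          refine GoodB.of_red htr
            (S1 hst (H1 H i) (upL L) 1 (em σ j) [none, em σ k] (by simp)) ?_
          refine S2 (c := cg (cg c (c i)) (cg c (c i) (em σ j))) htr hst
            (cub_H1 (cub_H1 hH i) _) (gr_H1 (gr_H1 hG i) _) (val_upB (val_upB hL' _) _) none
            [em _ none, em _ (em σ k)] ?_ (by simp) ?_ ?_
          · simp [em_apply]
          · exact (count_w (cg c (c i)) (em σ j) [none, em σ k]).trans hw
          · intro τ _ c' H' L' h1 h2 h3 h4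
            exact hrest τ c' H' L' h1 h2 h3 (h4.trans ((meas_up _).trans (meas_up L)))
      | i :: j :: a :: b :: v, _, hcu =>
        refine GoodB.of_red htr (S3 hst H L s i j (a :: b :: v) (by simp)) ?_
        have hlt : meas ((1, [em σ i, em σ j, some none]) ::
            (-s, none :: (a :: b :: v).map (em σ)) :: upL L) < n := by
          have e1 : meas ((1, [em σ i, em σ j, some none]) ::
              (-s, none :: (a :: b :: v).map (em σ)) :: upL L) =
              3 ^ 3 + (3 ^ (v.length + 3) + meas L) := by
            rw [← meas_up L]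
            unfold meas
            rw [List.map_cons, List.sum_cons, List.map_cons, List.sum_cons]
            simp only [List.length_cons, List.length_nil, List.length_map]
          have e2 : 3 ^ (i :: j :: a :: b :: v).length = 81 * 3 ^ v.length := by
            simp only [List.length_cons]
            ring
          have e3 : 3 ^ (v.length + 3) = 27 * 3 ^ v.length := by ring
          have e4 : 1 ≤ 3 ^ v.length := Nat.one_le_pow _ _ (by norm_num)
          rw [e1, e3]
          rw [hm, e2] at hn
          omega
        have hcu' : (a :: b :: v).countP c + (if c j = true then 1 else 0) +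
            (if c i = true then 1 else 0) = 1 := by
          rw [List.countP_cons, List.countP_cons] at hcu
          exact hcu
        refine ih _ hlt _ (cg c (c i || c j)) _ _ ?_ ?_ ?_ le_rfl
        · exact cub_H0 hH
        · exact gr_H0 hG _
        · intro q hq
          rcases List.mem_cons.1 hq with rfl | hq
          · refine ⟨Or.inl rfl, by simp, ?_⟩
            show [em σ i, em σ j, some none].countP (cg c (c i || c j)) = 1
            rw [List.countP_cons, List.countP_cons, List.countP_cons, List.countP_nil]
            show 0 + (if (!(c i || c j)) = true then 1 else 0) + (if c j = true then 1 else 0) +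
              (if c i = true then 1 else 0) = 1
            cases hi : c i <;> cases hj : c j <;> simp_all
          · rcases List.mem_cons.1 hq with rfl | hq
            · refine ⟨?_, by simp, ?_⟩
              · rcases hs with rfl | rfl
                · exact Or.inr rfl
                · exact Or.inl (neg_neg 1)
              · show (none :: (a :: b :: v).map (em σ)).countP (cg c (c i || c j)) = 1
                rw [List.countP_cons, count_up]
                show (a :: b :: v).countP c + (if (c i || c j) = true then 1 else 0) = 1
                generalize (a :: b :: v).countP c = N at hcu' ⊢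
                cases hi : c i <;> cases hj : c j <;> simp_all
            · exact val_upB hL' _ q hq

end

/-- Packet HG-WDB. -/
theorem t (htr : TRA) (hst : STE) (his : ISO) : WDB := by
  intro σ _ c H L hH hG hL
  exact main htr hst his (meas L) σ c H L hH hG hL le_rfl

end Pool.Agent.Helper24.HG.WDB
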