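import Pool.Agent.Helper74.HG.GoalsG
import Pool.Agent.Helper84.HG.WD

/-!
# Project HG, part 3: packet HG-WDG (words to hypergraphs, global version)
-/

namespace Pool.Agent.Helper24.HG.WDG

open MvPolynomial Pool.Agent.Helper74.HG Pool.Agent.Helper84.HG.WD
noncomputable section

/-- Signed words. -/
def Sg {σ : Type} (L : List (ℤ × List σ)) : Prop := ∀ p ∈ L, p.1 = 1 ∨ p.1 = -1

/-- `F` reduces to a hypergraph polynomial. -/
def GoodG {σ : Type} (F : MvPolynomial σ ℤ) : Prop :=
  ∃ (τ : Type) (_ : Fintype τ) (H' : Finset (Finset τ)), Rk3 H' ∧ RedG F (hyp H')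

theorem GoodG.of_red (htr : TRAG) {σ τ : Type} {F : MvPolynomial σ ℤ} {G : MvPolynomial τ ℤ}
    (h : RedG F G) (hG : GoodG G) : GoodG F := by
  obtain ⟨υ, i, H', h1, h2⟩ := hG
  exact ⟨υ, i, H', h1, htr _ _ _ h h2⟩

theorem rk3_up {σ : Type} {H : Finset (Finset σ)} (hH : Rk3 H) : Rk3 (upH H) := by
  intro e he
  unfold upH at he
  rw [Finset.mem_map] at he
  obtain ⟨e', he', rfl⟩ := he
  show 1 ≤ (e'.map (em σ)).card ∧ (e'.map (em σ)).card ≤ 3
  rw [Finset.card_map]
  exact hH e' he'

theorem rk3_ins {σ : Type} {H : Finset (Finset σ)} (hH : Rk3 H) {e : Finset σ}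
    (he : 1 ≤ e.card ∧ e.card ≤ 3) : Rk3 (ins e H) := by
  intro e' he'
  rcases mem_ins.1 he' with rfl | h
  · exact he
  · exact hH e' h

theorem sg_up {σ : Type} {L : List (ℤ × List σ)} (hL : Sg L) : Sg (upL L) := by
  intro p hp
  unfold upL at hp
  rw [List.mem_map] at hp
  obtain ⟨q, hq, rfl⟩ := hp
  exact hL q hq

theorem rk3_H0 {σ : Type} {H : Finset (Finset σ)} (hH : Rk3 H) : Rk3 (H0 H) :=
  rk3_ins (rk3_up hH) (by rw [card_pr none_ne]; omega)

theorem rk3_H1 {σ : Type} {H : Finset (Finset σ)} (hH : Rk3 H) (i : σ) : Rk3 (H1 H i) :=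
  rk3_ins (rk3_H0 hH) (by rw [card_pr (em_ne i)]; omega)

/-- A step with `a = X i`. -/
theorem S1 (hst : STEG) {σ : Type} (H : Finset (Finset σ)) (L : List (ℤ × List σ)) (c : ℤ) (i : σ)
    (y : List σ) :
    RedG (hyp H + (((c, i :: y) :: L).map wp).sum)
      (hyp (H1 H i) + (((-c, none :: y.map (em σ)) :: upL L).map wp).sum) := by
  have h := hst (hyp H + (L.map wp).sum) (X i) ((y.map X).prod) c
  have e1 : hyp H + (((c, i :: y) :: L).map wp).sum =
      hyp H + (L.map wp).sum + C c * X i * (y.map X).prod := by
    rw [sum_cons, wp_cons]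
    ring
  have e2 : hyp (H1 H i) + (((-c, none :: y.map (em σ)) :: upL L).map wp).sum =
      rename (fun i => some (some i)) (hyp H + (L.map wp).sum) +
        rename (fun i => some (some i)) (X i) * X (some none) -
        C c * X none * rename (fun i => some (some i)) ((y.map X).prod) + X none * X (some none) := by
    rw [map_add, rename_hyp, rename_sum, rename_list, rename_X, hyp_H1, sum_cons, wp_cons, em_apply,
      C_neg]
    ring
  rw [e1, e2]
  exact h

/-- A step with `a = X i X j`. -/
theorem S3 (hst : STEG) {σ : Type} (H : Finset (Finset σ)) (L : List (ℤ × List σ)) (c : ℤ)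
    (i j : σ) (y : List σ) :
    RedG (hyp H + (((c, i :: j :: y) :: L).map wp).sum)
      (hyp (H0 H) +
        (((1, [em σ i, em σ j, some none]) :: (-c, none :: y.map (em σ)) :: upL L).map wp).sum) := by
  have h := hst (hyp H + (L.map wp).sum) (X i * X j) ((y.map X).prod) c
  have e1 : hyp H + (((c, i :: j :: y) :: L).map wp).sum =
      hyp H + (L.map wp).sum + C c * (X i * X j) * (y.map X).prod := by
    rw [sum_cons, wp_cons, List.map_cons, List.prod_cons]
    ring
  have e2 : hyp (H0 H) +
        (((1, [em σ i, em σ j, some none]) :: (-c, none :: y.map (em σ)) :: upL L).map wp).sum =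
      rename (fun i => some (some i)) (hyp H + (L.map wp).sum) +
        rename (fun i => some (some i)) (X i * X j) * X (some none) -
        C c * X none * rename (fun i => some (some i)) ((y.map X).prod) + X none * X (some none) := by
    rw [map_add, rename_hyp, rename_sum, rename_list, map_mul, rename_X, rename_X, hyp_wl, sum_cons,
      sum_cons, wp_cons, wp_cons, em_apply, em_apply, C_neg, List.map_cons, List.map_cons,
      List.prod_cons, List.prod_cons, List.map_nil, List.prod_nil, C_1]
    ring
  rw [e1, e2]
  exact h

/-- The edge of the new variable `l`. -/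
def HE {σ : Type} (H : Finset (Finset σ)) : Finset (Finset (Option (Option σ))) :=
  ins {some none} (H0 H)

theorem l_not_mem {σ : Type} (H : Finset (Finset σ)) :
    ({some none} : Finset (Option (Option σ))) ∉ H0 H := by
  intro h
  rcases mem_ins.1 h with h | h
  · have h1 : (none : Option (Option σ)) ∈ pr (none : Option (Option σ)) (some none) :=
      mem_pr.2 (Or.inl rfl)
    rw [← h, Finset.mem_singleton] at h1
    cases h1
  · exact (none_not_mem h).2 (Finset.mem_singleton_self _)

theorem hyp_HE {σ : Type} (H : Finset (Finset σ)) :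
    hyp (HE H) = X (some none) + (X none * X (some none) + hyp (upH H)) := by
  unfold HE
  rw [hyp_ins (l_not_mem H), hyp_wl, Finset.prod_singleton]

theorem rk3_HE {σ : Type} {H : Finset (Finset σ)} (hH : Rk3 H) : Rk3 (HE H) :=
  rk3_ins (rk3_H0 hH) (by rw [Finset.card_singleton]; omega)

/-- A step for the empty word. -/
theorem S0 (hst : STEG) {σ : Type} (H : Finset (Finset σ)) (L : List (ℤ × List σ)) (c : ℤ) :
    RedG (hyp H + (((c, []) :: L).map wp).sum)
      (hyp (HE H) + (((-c, [none]) :: upL L).map wp).sum) := by
  have h := hst (hyp H + (L.map wp).sum) 1 1 c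
  have e1 : hyp H + (((c, []) :: L).map wp).sum = hyp H + (L.map wp).sum + C c * 1 * 1 := by
    rw [sum_cons]
    unfold wp
    rw [List.map_nil, List.prod_nil]
    ring
  have e2 : hyp (HE H) + (((-c, [none]) :: upL L).map wp).sum =
      rename (fun i => some (some i)) (hyp H + (L.map wp).sum) +
        rename (fun i => some (some i)) (1 : MvPolynomial σ ℤ) * X (some none) -
        C c * X none * rename (fun i => some (some i)) (1 : MvPolynomial σ ℤ) +
        X none * X (some none) := by
    rw [map_add, rename_hyp, rename_sum, map_one, hyp_HE, sum_cons, wp_cons, C_neg, List.map_nil,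
      List.prod_nil]
    ring
  rw [e1, e2]
  exact h

/-- A positive word without repetitions becomes an edge. -/
theorem edge {σ : Type} {K : Finset (Finset σ)} (L : List (ℤ × List σ)) {v : List σ}
    (hnd : v.Nodup) (hnm : toF v ∉ K) :
    hyp K + (((1, v) :: L).map wp).sum = hyp (ins (toF v) K) + (L.map wp).sum := by
  rw [hyp_ins hnm, prod_toF hnd, sum_cons]
  unfold wp
  rw [C_1]
  ring

/-- A step which ends with an edge. -/
theorem S2 (htr : TRAG) (hst : STEG) {σ : Type} [Fintype σ] {H : Finset (Finset σ)} (hH : Rk3 H)
    {L : List (ℤ × List σ)} (hL : Sg L) (i : σ) (y : List σ) (hy : y.Nodup)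
    (hl : y.length ≤ 2)
    (hrest : ∀ (τ : Type) [Fintype τ] (H' : Finset (Finset τ)) (L' : List (ℤ × List τ)), Rk3 H' →
      Sg L' → meas L' = meas L → GoodG (hyp H' + (L'.map wp).sum)) :
    GoodG (hyp H + (((-1, i :: y) :: L).map wp).sum) := by
  refine GoodG.of_red htr (S1 hst H L (-1) i y) ?_
  have hnd : ((none : Option (Option σ)) :: y.map (em σ)).Nodup := by
    rw [List.nodup_cons]
    refine ⟨?_, hy.map (em σ).injective⟩
    rw [List.mem_map]
    rintro ⟨a, _, ha⟩
    rw [em_apply] at ha
    cases ha
  have hln : (some none : Option (Option σ)) ∉ toF ((none : Option (Option σ)) :: y.map (em σ)) := by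
    rw [mem_toF, List.mem_cons, List.mem_map]
    rintro (h | ⟨a, _, ha⟩)
    · cases h
    · rw [em_apply] at ha
      cases ha
  have hnm : toF ((none : Option (Option σ)) :: y.map (em σ)) ∉ H1 H i := by
    unfold H1
    intro h
    rcases mem_ins.1 h with h | h
    · rw [h] at hln
      exact hln (mem_pr.2 (Or.inr rfl))
    · rcases mem_ins.1 h with h | h
      · rw [h] at hln
        exact hln (mem_pr.2 (Or.inr rfl))
      · exact (none_not_mem h).1 (mem_toF.2 (List.mem_cons_self ..))
  rw [neg_neg, edge (upL L) hnd hnm]
  refine hrest _ _ _ (rk3_ins (rk3_H1 hH i) ?_) (sg_up hL) (meas_up L)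
  rw [card_toF hnd, List.length_cons, List.length_map]
  omega

theorem main (htr : TRAG) (hst : STEG) (his : ISOG) : ∀ (n : ℕ) (σ : Type) [Fintype σ]
    (H : Finset (Finset σ)) (L : List (ℤ × List σ)), Rk3 H → Sg L → meas L ≤ n →
    GoodG (hyp H + (L.map wp).sum) := by
  intro n
  induction n using Nat.strong_induction_on with
  | _ n ih =>
    intro σ _ H L hH hL hn
    cases L with
    | nil =>
      refine ⟨σ, inferInstance, H, hH, ?_⟩
      rw [List.map_nil, List.sum_nil, add_zero]
      exact his AlgEquiv.refl (hyp H)
    | cons p L =>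
      obtain ⟨c, u⟩ := p
      have hc := hL (c, u) (List.mem_cons_self ..)
      have hL' : Sg L := fun q hq => hL q (List.mem_cons_of_mem _ hq)
      have hm : meas ((c, u) :: L) = 3 ^ u.length + meas L := by
        unfold meas
        rw [List.map_cons, List.sum_cons]
      have hpos : 0 < 3 ^ u.length := Nat.pow_pos (by norm_num)
      have hrest : ∀ (τ : Type) [Fintype τ] (H' : Finset (Finset τ)) (L' : List (ℤ × List τ)),
          Rk3 H' → Sg L' → meas L' = meas L → GoodG (hyp H' + (L'.map wp).sum) := by
        intro τ _ H' L' h1 h2 h3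
        exact ih (meas L) (by omega) τ H' L' h1 h2 h3.le
      simp only at hc
      match u with
      | [] =>
        rcases hc with rfl | rfl
        · refine GoodG.of_red htr (S0 hst H L 1) ?_
          refine S2 htr hst (rk3_HE hH) (sg_up hL') none [] (by simp) (by simp) ?_
          intro τ _ H' L' h1 h2 h3
          exact hrest τ H' L' h1 h2 (h3.trans (meas_up L))
        · refine GoodG.of_red htr (S0 hst H L (-1)) ?_
          have hnm : toF [(none : Option (Option σ))] ∉ HE H := by
            have hln : (some none : Option (Option σ)) ∉ toF [(none : Option (Option σ))] := by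
              rw [mem_toF, List.mem_singleton]
              intro h
              cases h
            intro h
            rcases mem_ins.1 h with h | h
            · rw [h] at hln
              exact hln (Finset.mem_singleton_self _)
            · rcases mem_ins.1 h with h | h
              · rw [h] at hln
                exact hln (mem_pr.2 (Or.inr rfl))
              · exact (none_not_mem h).1 (mem_toF.2 (List.mem_cons_self ..))
          rw [neg_neg, edge (upL L) (List.nodup_singleton _) hnm]
          refine hrest _ _ _ (rk3_ins (rk3_HE hH) ?_) (sg_up hL') (meas_up L)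
          rw [card_toF (List.nodup_singleton _)]
          simp
      | [i] =>
        rcases hc with rfl | rfl
        · refine GoodG.of_red htr (S1 hst H L 1 i []) ?_
          refine S2 htr hst (rk3_H1 hH i) (sg_up hL') none [] (by simp) (by simp) ?_
          intro τ _ H' L' h1 h2 h3
          exact hrest τ H' L' h1 h2 (h3.trans (meas_up L))
        · exact S2 htr hst hH hL' i [] (by simp) (by simp) hrest
      | [i, j] =>
        rcases hc with rfl | rfl
        · refine GoodG.of_red htr (S1 hst H L 1 i [j]) ?_
          refine S2 htr hst (rk3_H1 hH i) (sg_up hL') none [em σ j] (by simp) (by simp) ?_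
          intro τ _ H' L' h1 h2 h3
          exact hrest τ H' L' h1 h2 (h3.trans (meas_up L))
        · exact S2 htr hst hH hL' i [j] (by simp) (by simp) hrest
      | [i, j, k] =>
        rcases hc with rfl | rfl
        · refine GoodG.of_red htr (S1 hst H L 1 i [j, k]) ?_
          have e : (((-1, none :: [j, k].map (em σ)) :: upL L).map wp).sum =
              (((-1, em σ j :: [none, em σ k]) :: upL L).map wp).sum := by
            rw [sum_cons, sum_cons]
            congr 1
            exact wp_swap _ _ _ _
          rw [e]
          refine S2 htr hst (rk3_H1 hH i) (sg_up hL') (em σ j) [none, em σ k] ?_ (by simp) ?_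
          · simp [em_apply]
          · intro τ _ H' L' h1 h2 h3
            exact hrest τ H' L' h1 h2 (h3.trans (meas_up L))
        · refine GoodG.of_red htr (S1 hst H L (-1) i [j, k]) ?_
          have e : (((- -1, none :: [j, k].map (em σ)) :: upL L).map wp).sum =
              (((1, em σ j :: [none, em σ k]) :: upL L).map wp).sum := by
            rw [sum_cons, sum_cons, neg_neg]
            congr 1
            exact wp_swap _ _ _ _
          rw [e]
          refine GoodG.of_red htr (S1 hst (H1 H i) (upL L) 1 (em σ j) [none, em σ k]) ?_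
          refine S2 htr hst (rk3_H1 (rk3_H1 hH i) _) (sg_up (sg_up hL')) none
            [em _ none, em _ (em σ k)] ?_ (by simp) ?_
          · simp [em_apply]
          · intro τ _ H' L' h1 h2 h3
            exact hrest τ H' L' h1 h2 (h3.trans ((meas_up _).trans (meas_up L)))
      | i :: j :: a :: b :: v =>
        refine GoodG.of_red htr (S3 hst H L c i j (a :: b :: v)) ?_
        have hlt : meas ((1, [em σ i, em σ j, some none]) ::
            (-c, none :: (a :: b :: v).map (em σ)) :: upL L) < n := by
          have e1 : meas ((1, [em σ i, em σ j, some none]) ::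
              (-c, none :: (a :: b :: v).map (em σ)) :: upL L) =
              3 ^ 3 + (3 ^ (v.length + 3) + meas L) := by
            rw [← meas_up L]
            unfold meas
            rw [List.map_cons, List.sum_cons, List.map_cons, List.sum_cons]
            simp only [List.length_cons, List.length_nil, List.length_map]
          have e2 : 3 ^ (i :: j :: a :: b :: v).length = 81 * 3 ^ v.length := by
            simp only [List.length_cons]
            ring
          have e3 : 3 ^ (v.length + 3) = 27 * 3 ^ v.length := by ring
          have e4 : 1 ≤ 3 ^ v.length := Nat.one_le_pow _ _ (by norm_num)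
          rw [e1, e3]
          rw [hm, e2] at hn
          omega
        refine ih _ hlt _ _ _ ?_ ?_ le_rfl
        · exact rk3_H0 hH
        · intro q hq
          rcases List.mem_cons.1 hq with rfl | hq
          · exact Or.inl rfl
          · rcases List.mem_cons.1 hq with rfl | hq
            · rcases hc with rfl | rfl
              · exact Or.inr rfl
              · exact Or.inl (neg_neg 1)
            · exact sg_up hL' q hq

end

/-- Packet HG-WDG. -/
theorem t (htr : TRAG) (hst : STEG) (his : ISOG) : WDG := by
  intro σ _ H L hH hL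
  exact main htr hst his (meas L) σ H L hH hL le_rfl

end Pool.Agent.Helper24.HG.WDG
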